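import Mathlib

set_option autoImplicit false

namespace Pool.Agent.H77.Glue

/-- Type 2: every join is a product of three relations. -/
def IsType2 {L A : Type} [Lattice L] (F : LatticeHom L (Setoid A)) : Prop :=
  ∀ x y : L, ∀ s t : A, F (x ⊔ y) s t → ∃ c d : A, F x s c ∧ F y c d ∧ F x d t

section

variable {L : Type} [Lattice L] {a b : L}
  {V C W : Type} [AddCommGroup V] [AddCommGroup C]
  (S2 : LatticeHom (Set.Ici a) (AddSubgroup V))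
  (H : V →+ C)
  (hb : a ≤ b)
  (S1 : LatticeHom (Set.Iic b) (Setoid W))
  (Φ : Quotient (S1 ⟨a, hb⟩) → C)

/-- The glued base set. -/
def Base : Type := {s : V × W // H s.1 = Φ (Quotient.mk _ s.2)}

/-- The glued relation attached to a lattice element. -/
def rel (x : L) : Setoid (Base H hb S1 Φ) where
  r s t := s.1.1 - t.1.1 ∈ S2 ⟨x ⊔ a, le_sup_right⟩ ∧
    ∀ hx : x ≤ b, S1 ⟨x, hx⟩ s.1.2 t.1.2
  iseqv := by
    refine ⟨?_, ?_, ?_⟩
    · intro s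
      refine ⟨?_, fun hx => Setoid.refl' _ _⟩
      rw [sub_self]
      exact AddSubgroup.zero_mem _
    · rintro s t ⟨h1, h2⟩
      refine ⟨?_, fun hx => Setoid.symm' _ (h2 hx)⟩
      rw [← neg_sub]
      exact AddSubgroup.neg_mem _ h1
    · rintro s t u ⟨h1, h2⟩ ⟨h3, h4⟩
      refine ⟨?_, fun hx => Setoid.trans' _ (h2 hx) (h4 hx)⟩
      rw [← sub_add_sub_cancel]
      exact AddSubgroup.add_mem _ h1 h3

theorem rel_iff (x : L) (s t : Base H hb S1 Φ) :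
    rel S2 H hb S1 Φ x s t ↔ s.1.1 - t.1.1 ∈ S2 ⟨x ⊔ a, le_sup_right⟩ ∧
      ∀ hx : x ≤ b, S1 ⟨x, hx⟩ s.1.2 t.1.2 := Iff.rfl

theorem rel_mono {x y : L} (hxy : x ≤ y) : rel S2 H hb S1 Φ x ≤ rel S2 H hb S1 Φ y := by
  intro s t h
  obtain ⟨h1, h2⟩ := h
  refine ⟨?_, fun hy => ?_⟩
  · have : S2 ⟨x ⊔ a, le_sup_right⟩ ≤ S2 ⟨y ⊔ a, le_sup_right⟩ :=
      OrderHomClass.mono S2 (show (⟨x ⊔ a, _⟩ : Set.Ici a) ≤ ⟨y ⊔ a, _⟩ from sup_le_sup_right hxy a)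
    exact this h1
  · have : S1 ⟨x, hxy.trans hy⟩ ≤ S1 ⟨y, hy⟩ :=
      OrderHomClass.mono S1 (show (⟨x, _⟩ : Set.Iic b) ≤ ⟨y, _⟩ from hxy)
    exact this (h2 (hxy.trans hy))

variable (hab : a ⋖ b)
  (hH0 : ∀ v ∈ S2 ⟨b, hb⟩, H v = 0 → v ∈ S2 ⟨a, le_rfl⟩)
  (hH0' : ∀ v ∈ S2 ⟨a, le_rfl⟩, H v = 0)
  (hH1 : ∀ c, ∃ v ∈ S2 ⟨b, hb⟩, H v = c)
  (hS1b : ∀ w w', S1 ⟨b, le_rfl⟩ w w')
  (hΦ : Function.Injective Φ)

include hH0' hS1b hΦ hab in
theorem rel_up {x : L} (hx : a ≤ x) (s t : Base H hb S1 Φ) :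
    rel S2 H hb S1 Φ x s t ↔ s.1.1 - t.1.1 ∈ S2 ⟨x, hx⟩ := by
  have hxa : x ⊔ a = x := sup_eq_left.2 hx
  have e : (⟨x ⊔ a, le_sup_right⟩ : Set.Ici a) = ⟨x, hx⟩ := Subtype.ext hxa
  rw [rel_iff, e]
  refine ⟨fun h => h.1, fun h => ⟨h, fun hxb => ?_⟩⟩
  rcases hab.eq_or_eq hx hxb with rfl | rfl
  · have h0 : H (s.1.1 - t.1.1) = 0 := hH0' _ h
    rw [map_sub, sub_eq_zero, s.2, t.2] at h0
    have := hΦ h0
    exact Quotient.exact this
  · exact hS1b _ _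

include hH0 hab in
theorem rel_low {x : L} (hx : x ≤ b) (s t : Base H hb S1 Φ) :
    rel S2 H hb S1 Φ x s t ↔ s.1.1 - t.1.1 ∈ S2 ⟨b, hb⟩ ∧ S1 ⟨x, hx⟩ s.1.2 t.1.2 := by
  rw [rel_iff]
  constructor
  · rintro ⟨h1, h2⟩
    refine ⟨?_, h2 hx⟩
    have : S2 ⟨x ⊔ a, le_sup_right⟩ ≤ S2 ⟨b, hb⟩ :=
      OrderHomClass.mono S2 (show (⟨x ⊔ a, _⟩ : Set.Ici a) ≤ ⟨b, _⟩ from sup_le hx hb)
    exact this h1
  · rintro ⟨h1, h2⟩
    refine ⟨?_, fun _ => h2⟩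
    rcases hab.eq_or_eq (show a ≤ x ⊔ a from le_sup_right) (sup_le hx hb) with h | h
    · have e : (⟨x ⊔ a, le_sup_right⟩ : Set.Ici a) = ⟨a, le_rfl⟩ := Subtype.ext h
      rw [e]
      apply hH0 _ h1
      have hxa : x ≤ a := by rw [← h]; exact le_sup_left
      have hm : S1 ⟨x, hx⟩ ≤ S1 ⟨a, hb⟩ :=
        OrderHomClass.mono S1 (show (⟨x, _⟩ : Set.Iic b) ≤ ⟨a, _⟩ from hxa)
      have h3 : S1 ⟨a, hb⟩ s.1.2 t.1.2 := hm h2
      rw [map_sub, sub_eq_zero, s.2, t.2]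
      exact congrArg Φ (Quotient.sound h3)
    · have e : (⟨x ⊔ a, le_sup_right⟩ : Set.Ici a) = ⟨b, hb⟩ := Subtype.ext h
      rw [e]
      exact h1

variable (hcov : ∀ x : L, x ≤ b ∨ a ≤ x)
  (htype2 : IsType2 S1)
  (hcomm : ∀ y : Set.Iic b, ¬ y.1 ≤ a → ∀ w w', ∃ w'', S1 y w w'' ∧ S1 ⟨a, hb⟩ w'' w')
  (robust : ∀ x : Set.Ici a, ∀ v v', H v ∈ Set.range Φ → H v' ∈ Set.range Φ →
    ∀ ξ0 ∈ S2 x, ∃ ξ1 ∈ S2 x, H (v + ξ1) ∈ Set.range Φ ∧ H (v' - ξ0 + ξ1) ∈ Set.range Φ)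

/-- Lift to the base set. -/
theorem exists_base (v : V) (hv : H v ∈ Set.range Φ) :
    ∃ s : Base H hb S1 Φ, s.1.1 = v := by
  obtain ⟨q, hq⟩ := hv
  obtain ⟨w, rfl⟩ := Quotient.exists_rep q
  exact ⟨⟨(v, w), hq.symm⟩, rfl⟩

theorem mem_range (s : Base H hb S1 Φ) : H s.1.1 ∈ Set.range Φ := ⟨_, s.2.symm⟩

include hH0 hH0' hH1 hS1b hΦ hab hcov htype2 hcomm robust in
theorem type2_aux (x y : L) (s t : Base H hb S1 Φ) (hst : rel S2 H hb S1 Φ (x ⊔ y) s t) :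
    ∃ c d, rel S2 H hb S1 Φ x s c ∧ rel S2 H hb S1 Φ y c d ∧ rel S2 H hb S1 Φ x d t := by
  -- trivial cases
  by_cases hxy : x ≤ y
  · rw [sup_eq_right.2 hxy] at hst
    exact ⟨s, t, Setoid.refl' _ _, hst, Setoid.refl' _ _⟩
  by_cases hyx : y ≤ x
  · rw [sup_eq_left.2 hyx] at hst
    exact ⟨s, s, Setoid.refl' _ _, Setoid.refl' _ _, hst⟩
  by_cases hax : a ≤ x
  · by_cases hay : a ≤ y
    · -- case A
      rw [rel_up S2 H hb S1 Φ hab hH0' hS1b hΦ (hax.trans le_sup_left)] at hst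
      have e : (⟨x ⊔ y, hax.trans le_sup_left⟩ : Set.Ici a) = ⟨x, hax⟩ ⊔ ⟨y, hay⟩ := rfl
      rw [e, map_sup, AddSubgroup.mem_sup] at hst
      obtain ⟨ξ, hξ, η, hη, hsum⟩ := hst
      obtain ⟨ξ1, h1, h2, h3⟩ := robust ⟨x, hax⟩ s.1.1 t.1.1 (mem_range _ _ _ _ s)
        (mem_range _ _ _ _ t) (-ξ) (AddSubgroup.neg_mem _ hξ)
      obtain ⟨c, hc⟩ := exists_base _ _ _ _ _ h2
      obtain ⟨d, hd⟩ := exists_base _ _ _ _ _ h3
      have hcd : c.1.1 - d.1.1 = η := by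
        rw [hc, hd]
        have : s.1.1 = ξ + η + t.1.1 := by rw [hsum]; abel
        rw [this]; abel
      refine ⟨c, d, ?_, ?_, ?_⟩
      · rw [rel_up S2 H hb S1 Φ hab hH0' hS1b hΦ hax, hc]
        have : s.1.1 - (s.1.1 + ξ1) = -ξ1 := by abel
        rw [this]; exact AddSubgroup.neg_mem _ h1
      · rw [rel_up S2 H hb S1 Φ hab hH0' hS1b hΦ hay, hcd]
        exact hη
      · rw [rel_up S2 H hb S1 Φ hab hH0' hS1b hΦ hax, hd]
        have : t.1.1 - -ξ + ξ1 - t.1.1 = ξ + ξ1 := by abel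
        rw [this]; exact AddSubgroup.add_mem _ hξ h1
    · -- case C
      have hyb : y ≤ b := (hcov y).resolve_right hay
      by_cases hbx : b ≤ x
      · exact absurd (hyb.trans hbx) hyx
      have hya : ¬ y ≤ a := fun h => hyx (h.trans hax)
      have hyab : y ⊔ a = b := by
        rcases hab.eq_or_eq (show a ≤ y ⊔ a from le_sup_right) (sup_le hyb hb) with h | h
        · exact absurd (by rw [← h]; exact le_sup_left) hya
        · exact h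
      have hsup : x ⊔ y = x ⊔ b := by
        rw [← hyab, ← sup_assoc, sup_eq_left.2 (hax.trans le_sup_left)]
      rw [hsup, rel_up S2 H hb S1 Φ hab hH0' hS1b hΦ (hax.trans le_sup_left)] at hst
      have e : (⟨x ⊔ b, hax.trans le_sup_left⟩ : Set.Ici a) = ⟨x, hax⟩ ⊔ ⟨b, hb⟩ := rfl
      rw [e, map_sup, AddSubgroup.mem_sup] at hst
      obtain ⟨ξ, hξ, η, hη, hsum⟩ := hst
      obtain ⟨ξ1, h1, h2, h3⟩ := robust ⟨x, hax⟩ s.1.1 t.1.1 (mem_range _ _ _ _ s)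
        (mem_range _ _ _ _ t) (-ξ) (AddSubgroup.neg_mem _ hξ)
      obtain ⟨c, hc⟩ := exists_base _ _ _ _ _ h2
      obtain ⟨q, hq⟩ := h3
      obtain ⟨w', rfl⟩ := Quotient.exists_rep q
      obtain ⟨w'', hw1, hw2⟩ := hcomm ⟨y, hyb⟩ hya c.1.2 w'
      have hw3 : Φ (Quotient.mk _ w'') = H (t.1.1 - -ξ + ξ1) := by
        rw [← hq]; exact congrArg Φ (Quotient.sound hw2)
      let d : Base H hb S1 Φ := ⟨(t.1.1 - -ξ + ξ1, w''), hw3.symm⟩
      have hd : d.1.1 = t.1.1 - -ξ + ξ1 := rfl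
      have hcd : c.1.1 - d.1.1 = η := by
        rw [hc, hd]
        have : s.1.1 = ξ + η + t.1.1 := by rw [hsum]; abel
        rw [this]; abel
      refine ⟨c, d, ?_, ?_, ?_⟩
      · rw [rel_up S2 H hb S1 Φ hab hH0' hS1b hΦ hax, hc]
        have : s.1.1 - (s.1.1 + ξ1) = -ξ1 := by abel
        rw [this]; exact AddSubgroup.neg_mem _ h1
      · rw [rel_low S2 H hb S1 Φ hab hH0 hyb, hcd]
        exact ⟨hη, hw1⟩
      · rw [rel_up S2 H hb S1 Φ hab hH0' hS1b hΦ hax, hd]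
        have : t.1.1 - -ξ + ξ1 - t.1.1 = ξ + ξ1 := by abel
        rw [this]; exact AddSubgroup.add_mem _ hξ h1
  · have hxb : x ≤ b := (hcov x).resolve_right hax
    by_cases hyb : y ≤ b
    · -- case B
      rw [rel_low S2 H hb S1 Φ hab hH0 (sup_le hxb hyb)] at hst
      obtain ⟨hst1, hst2⟩ := hst
      have e : (⟨x ⊔ y, sup_le hxb hyb⟩ : Set.Iic b) = ⟨x, hxb⟩ ⊔ ⟨y, hyb⟩ := rfl
      rw [e] at hst2
      obtain ⟨w1, w2, hw1, hw2, hw3⟩ := htype2 _ _ _ _ hst2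
      obtain ⟨β1, hβ1, hβ1'⟩ := hH1 (Φ (Quotient.mk _ w1) - H s.1.1)
      obtain ⟨β2, hβ2, hβ2'⟩ := hH1 (Φ (Quotient.mk _ w2) - H s.1.1)
      let c : Base H hb S1 Φ := ⟨(s.1.1 + β1, w1), by
        show H (s.1.1 + β1) = _
        rw [map_add, hβ1']; abel⟩
      let d : Base H hb S1 Φ := ⟨(s.1.1 + β2, w2), by
        show H (s.1.1 + β2) = _
        rw [map_add, hβ2']; abel⟩
      have hc : c.1.1 = s.1.1 + β1 := rfl
      have hd : d.1.1 = s.1.1 + β2 := rfl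
      refine ⟨c, d, ?_, ?_, ?_⟩
      · rw [rel_low S2 H hb S1 Φ hab hH0 hxb, hc]
        refine ⟨?_, hw1⟩
        have : s.1.1 - (s.1.1 + β1) = -β1 := by abel
        rw [this]; exact AddSubgroup.neg_mem _ hβ1
      · rw [rel_low S2 H hb S1 Φ hab hH0 hyb, hc, hd]
        refine ⟨?_, hw2⟩
        have : s.1.1 + β1 - (s.1.1 + β2) = β1 - β2 := by abel
        rw [this]; exact AddSubgroup.sub_mem _ hβ1 hβ2
      · rw [rel_low S2 H hb S1 Φ hab hH0 hxb, hd]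
        refine ⟨?_, hw3⟩
        have : s.1.1 + β2 - t.1.1 = (s.1.1 - t.1.1) + β2 := by abel
        rw [this]; exact AddSubgroup.add_mem _ hst1 hβ2
    · -- case D
      have hay : a ≤ y := (hcov y).resolve_left hyb
      have hxa : ¬ x ≤ a := fun h => hxy (h.trans hay)
      have hxab : x ⊔ a = b := by
        rcases hab.eq_or_eq (show a ≤ x ⊔ a from le_sup_right) (sup_le hxb hb) with h | h
        · exact absurd (by rw [← h]; exact le_sup_left) hxa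
        · exact h
      have hsup : x ⊔ y = b ⊔ y := by
        rw [← hxab, sup_assoc, sup_eq_right.2 hay]
      rw [hsup, rel_up S2 H hb S1 Φ hab hH0' hS1b hΦ (hay.trans le_sup_right)] at hst
      have e : (⟨b ⊔ y, hay.trans le_sup_right⟩ : Set.Ici a) = ⟨b, hb⟩ ⊔ ⟨y, hay⟩ := rfl
      rw [e, map_sup, AddSubgroup.mem_sup] at hst
      obtain ⟨ξ, hξ, η, hη, hsum⟩ := hst
      obtain ⟨ξ1, h1, h2, h3⟩ := robust ⟨b, hb⟩ s.1.1 t.1.1 (mem_range _ _ _ _ s)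
        (mem_range _ _ _ _ t) (-ξ) (AddSubgroup.neg_mem _ hξ)
      obtain ⟨p, hp⟩ := h2
      obtain ⟨q, hq⟩ := h3
      obtain ⟨w', rfl⟩ := Quotient.exists_rep q
      obtain ⟨u', rfl⟩ := Quotient.exists_rep p
      obtain ⟨w'', hw1, hw2⟩ := hcomm ⟨x, hxb⟩ hxa t.1.2 w'
      obtain ⟨u'', hu1, hu2⟩ := hcomm ⟨x, hxb⟩ hxa s.1.2 u'
      have hw3 : Φ (Quotient.mk _ w'') = H (t.1.1 - -ξ + ξ1) := by
        rw [← hq]; exact congrArg Φ (Quotient.sound hw2)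
      have hu3 : Φ (Quotient.mk _ u'') = H (s.1.1 + ξ1) := by
        rw [← hp]; exact congrArg Φ (Quotient.sound hu2)
      let d : Base H hb S1 Φ := ⟨(t.1.1 - -ξ + ξ1, w''), hw3.symm⟩
      let c : Base H hb S1 Φ := ⟨(s.1.1 + ξ1, u''), hu3.symm⟩
      have hd : d.1.1 = t.1.1 - -ξ + ξ1 := rfl
      have hc : c.1.1 = s.1.1 + ξ1 := rfl
      have hcd : c.1.1 - d.1.1 = η := by
        rw [hc, hd]
        have : s.1.1 = ξ + η + t.1.1 := by rw [hsum]; abel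
        rw [this]; abel
      refine ⟨c, d, ?_, ?_, ?_⟩
      · rw [rel_low S2 H hb S1 Φ hab hH0 hxb, hc]
        refine ⟨?_, hu1⟩
        have : s.1.1 - (s.1.1 + ξ1) = -ξ1 := by abel
        rw [this]; exact AddSubgroup.neg_mem _ h1
      · rw [rel_up S2 H hb S1 Φ hab hH0' hS1b hΦ hay, hcd]
        exact hη
      · rw [rel_low S2 H hb S1 Φ hab hH0 hxb, hd]
        refine ⟨?_, Setoid.symm' _ hw1⟩
        have : t.1.1 - -ξ + ξ1 - t.1.1 = ξ + ξ1 := by abel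
        rw [this]; exact AddSubgroup.add_mem _ hξ h1

include hH0 hH0' hS1b hΦ hab hcov in
theorem inf_aux (x y : L) (s t : Base H hb S1 Φ) (h1 : rel S2 H hb S1 Φ x s t)
    (h2 : rel S2 H hb S1 Φ y s t) : rel S2 H hb S1 Φ (x ⊓ y) s t := by
  -- low-low
  have low : ∀ x y : L, x ≤ b → y ≤ b → rel S2 H hb S1 Φ x s t → rel S2 H hb S1 Φ y s t →
      rel S2 H hb S1 Φ (x ⊓ y) s t := by
    intro x y hx hy h1 h2
    rw [rel_low S2 H hb S1 Φ hab hH0 hx] at h1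
    rw [rel_low S2 H hb S1 Φ hab hH0 hy] at h2
    rw [rel_low S2 H hb S1 Φ hab hH0 (inf_le_left.trans hx)]
    refine ⟨h1.1, ?_⟩
    have e : (⟨x ⊓ y, inf_le_left.trans hx⟩ : Set.Iic b) = ⟨x, hx⟩ ⊓ ⟨y, hy⟩ := rfl
    rw [e, map_inf]
    exact ⟨h1.2, h2.2⟩
  have up : ∀ x y : L, a ≤ x → a ≤ y → rel S2 H hb S1 Φ x s t → rel S2 H hb S1 Φ y s t →
      rel S2 H hb S1 Φ (x ⊓ y) s t := by
    intro x y hx hy h1 h2
    rw [rel_up S2 H hb S1 Φ hab hH0' hS1b hΦ hx] at h1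
    rw [rel_up S2 H hb S1 Φ hab hH0' hS1b hΦ hy] at h2
    rw [rel_up S2 H hb S1 Φ hab hH0' hS1b hΦ (le_inf hx hy)]
    have e : (⟨x ⊓ y, le_inf hx hy⟩ : Set.Ici a) = ⟨x, hx⟩ ⊓ ⟨y, hy⟩ := rfl
    rw [e, map_inf]
    exact ⟨h1, h2⟩
  have mixed : ∀ x y : L, a ≤ x → y ≤ b → rel S2 H hb S1 Φ x s t → rel S2 H hb S1 Φ y s t →
      rel S2 H hb S1 Φ (x ⊓ y) s t := by
    intro x y hx hy h1 h2
    have hb' : rel S2 H hb S1 Φ b s t := rel_mono S2 H hb S1 Φ hy h2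
    have h3 := up x b hx hb h1 hb'
    have h4 := low (x ⊓ b) y inf_le_right hy h3 h2
    have : x ⊓ b ⊓ y = x ⊓ y := by rw [inf_assoc, inf_eq_right.2 hy]
    rwa [this] at h4
  rcases hcov x with hx | hx
  · rcases hcov y with hy | hy
    · exact low x y hx hy h1 h2
    · rw [inf_comm]; exact mixed y x hy hx h2 h1
  · rcases hcov y with hy | hy
    · exact mixed x y hx hy h1 h2
    · exact up x y hx hy h1 h2

/-- The glued representation. -/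
def glueHom : LatticeHom L (Setoid (Base H hb S1 Φ)) where
  toFun := rel S2 H hb S1 Φ
  map_sup' x y := by
    apply le_antisymm
    · intro s t hst
      obtain ⟨c, d, h1, h2, h3⟩ := type2_aux S2 H hb S1 Φ hab hH0 hH0' hH1 hS1b hΦ hcov htype2
        hcomm robust x y s t hst
      have l1 : rel S2 H hb S1 Φ x ≤ rel S2 H hb S1 Φ x ⊔ rel S2 H hb S1 Φ y := le_sup_left
      have l2 : rel S2 H hb S1 Φ y ≤ rel S2 H hb S1 Φ x ⊔ rel S2 H hb S1 Φ y := le_sup_right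
      exact Setoid.trans' _ (l1 h1) (Setoid.trans' _ (l2 h2) (l1 h3))
    · exact sup_le (rel_mono S2 H hb S1 Φ le_sup_left) (rel_mono S2 H hb S1 Φ le_sup_right)
  map_inf' x y := by
    apply le_antisymm
    · exact le_inf (rel_mono S2 H hb S1 Φ inf_le_left) (rel_mono S2 H hb S1 Φ inf_le_right)
    · intro s t hst
      exact inf_aux S2 H hb S1 Φ hab hH0 hH0' hS1b hΦ hcov x y s t hst.1 hst.2

variable (hS2i : Function.Injective S2) (hS1i : Function.Injective S1)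

include hH0 hH0' hH1 hS1b hΦ hab hcov htype2 hcomm robust hS2i hS1i in
theorem glueHom_injective : Function.Injective
    (glueHom S2 H hb S1 Φ hab hH0 hH0' hH1 hS1b hΦ hcov htype2 hcomm robust) := by
  have hW : Nonempty W := by
    by_contra hne
    rw [not_nonempty_iff] at hne
    have : S1 ⟨a, hb⟩ = S1 ⟨b, le_rfl⟩ := by
      ext w
      exact (hne.false w).elim
    have := hS1i this
    exact hab.ne (congrArg Subtype.val this)
  have up : ∀ x y : L, a ≤ x → a ≤ y → rel S2 H hb S1 Φ x ≤ rel S2 H hb S1 Φ y → x ≤ y := by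
    intro x y hx hy h
    have : S2 ⟨x, hx⟩ ≤ S2 ⟨y, hy⟩ := by
      intro ζ hζ
      obtain ⟨w⟩ := hW
      obtain ⟨v, hv, hv'⟩ := hH1 (Φ (Quotient.mk _ w))
      have hvr : H v ∈ Set.range Φ := ⟨_, hv'.symm⟩
      obtain ⟨ξ1, h1, h2, h3⟩ := robust ⟨x, hx⟩ v v hvr hvr ζ hζ
      obtain ⟨c, hc⟩ := exists_base _ _ _ _ _ h2
      obtain ⟨d, hd⟩ := exists_base _ _ _ _ _ h3
      have hcd : c.1.1 - d.1.1 = ζ := by rw [hc, hd]; abel
      have h4 : rel S2 H hb S1 Φ x c d := by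
        rw [rel_up S2 H hb S1 Φ hab hH0' hS1b hΦ hx, hcd]; exact hζ
      have h5 := h h4
      rw [rel_up S2 H hb S1 Φ hab hH0' hS1b hΦ hy, hcd] at h5
      exact h5
    have h6 : S2 (⟨x, hx⟩ ⊔ ⟨y, hy⟩) = S2 ⟨y, hy⟩ := by
      rw [map_sup, sup_eq_right.2 this]
    have h7 := congrArg Subtype.val (hS2i h6)
    have h8 : x ⊔ y = y := h7
    exact sup_eq_right.1 h8
  have low : ∀ x y : L, x ≤ b → y ≤ b → rel S2 H hb S1 Φ x ≤ rel S2 H hb S1 Φ y → x ≤ y := by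
    intro x y hx hy h
    have : S1 ⟨x, hx⟩ ≤ S1 ⟨y, hy⟩ := by
      intro w w' hww
      obtain ⟨v, hv, hv'⟩ := hH1 (Φ (Quotient.mk _ w))
      obtain ⟨β, hβ, hβ'⟩ := hH1 (Φ (Quotient.mk _ w'))
      let c : Base H hb S1 Φ := ⟨(v, w), hv'⟩
      let d : Base H hb S1 Φ := ⟨(β, w'), hβ'⟩
      have h4 : rel S2 H hb S1 Φ x c d := by
        rw [rel_low S2 H hb S1 Φ hab hH0 hx]
        exact ⟨AddSubgroup.sub_mem _ hv hβ, hww⟩
      have h5 := h h4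
      rw [rel_low S2 H hb S1 Φ hab hH0 hy] at h5
      exact h5.2
    have h6 : S1 (⟨x, hx⟩ ⊔ ⟨y, hy⟩) = S1 ⟨y, hy⟩ := by
      rw [map_sup, sup_eq_right.2 this]
    have h7 := congrArg Subtype.val (hS1i h6)
    have h8 : x ⊔ y = y := h7
    exact sup_eq_right.1 h8
  have hinf : ∀ x y : L, rel S2 H hb S1 Φ (x ⊓ y) =
      rel S2 H hb S1 Φ x ⊓ rel S2 H hb S1 Φ y := fun x y => map_inf
      (glueHom S2 H hb S1 Φ hab hH0 hH0' hH1 hS1b hΦ hcov htype2 hcomm robust) x y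
  -- general: rel x ≤ rel y → x ≤ y
  have mixed : ∀ x y : L, a ≤ x → y ≤ b → rel S2 H hb S1 Φ x ≤ rel S2 H hb S1 Φ y → x ≤ y := by
    intro x y hx hy h
    have h1 : rel S2 H hb S1 Φ x ≤ rel S2 H hb S1 Φ b := h.trans (rel_mono S2 H hb S1 Φ hy)
    have h2 : x ≤ b := up x b hx hb h1
    exact low x y h2 hy h
  have mixed' : ∀ x y : L, x ≤ b → a ≤ y → rel S2 H hb S1 Φ x ≤ rel S2 H hb S1 Φ y → x ≤ y := by
    intro x y hx hy h
    by_cases hby : b ≤ y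
    · exact hx.trans hby
    have hyb : y ⊓ b = a := by
      rcases hab.eq_or_eq (le_inf hy hb) (inf_le_right : y ⊓ b ≤ b) with h | h
      · exact h
      · exact absurd (inf_eq_right.1 h) hby
    have h1 : rel S2 H hb S1 Φ x ≤ rel S2 H hb S1 Φ (y ⊓ b) := by
      rw [hinf]
      exact le_inf h (rel_mono S2 H hb S1 Φ hx)
    rw [hyb] at h1
    exact (low x a hx hb h1).trans hy
  have gen : ∀ x y : L, rel S2 H hb S1 Φ x ≤ rel S2 H hb S1 Φ y → x ≤ y := by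
    intro x y h
    rcases hcov x with hx | hx
    · rcases hcov y with hy | hy
      · exact low x y hx hy h
      · exact mixed' x y hx hy h
    · rcases hcov y with hy | hy
      · exact mixed x y hx hy h
      · exact up x y hx hy h
  intro x y hxy
  have hxy' : rel S2 H hb S1 Φ x = rel S2 H hb S1 Φ y := hxy
  exact le_antisymm (gen x y hxy'.le) (gen y x hxy'.ge)

end

end Pool.Agent.H77.Glue
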