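import Mathlib
import Pool.Agent.H77.Glue.Abstract

set_option autoImplicit false

namespace Pool.Agent.H77.Glue

section

variable {L U : Type} [Lattice L] (R : LatticeHom L (Setoid U)) (top : L) (htop : ∀ x, x ≤ top)
  (hR : IsType2 R) (ι : Type) (κ : ι → Quotient (R top))

/-- Points of the product over blocks. -/
def Blk : Type := {w : ι → U // ∀ i, Quotient.mk (R top) (w i) = κ i}

/-- Product relation. -/
def prel (x : L) : Setoid (Blk R top ι κ) where
  r w w' := ∀ i, R x (w.1 i) (w'.1 i)
  iseqv := ⟨fun _ _ => Setoid.refl' _ _, fun h i => Setoid.symm' _ (h i),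
    fun h h' i => Setoid.trans' _ (h i) (h' i)⟩

theorem prel_iff (x : L) (w w' : Blk R top ι κ) :
    prel R top ι κ x w w' ↔ ∀ i, R x (w.1 i) (w'.1 i) := Iff.rfl

include htop in
theorem blk_of_rel {x : L} (w : Blk R top ι κ) (c : ι → U) (hc : ∀ i, R x (w.1 i) (c i)) :
    ∀ i, Quotient.mk (R top) (c i) = κ i := by
  intro i
  rw [← w.2 i]
  have : R x ≤ R top := OrderHomClass.mono R (htop x)
  exact Quotient.sound (Setoid.symm' _ (this (hc i)))

include htop hR in
theorem prel_type2_aux (x y : L) (w w' : Blk R top ι κ) (h : prel R top ι κ (x ⊔ y) w w') :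
    ∃ c d, prel R top ι κ x w c ∧ prel R top ι κ y c d ∧ prel R top ι κ x d w' := by
  choose c d h1 h2 h3 using fun i => hR x y _ _ (h i)
  have hc := blk_of_rel R top htop ι κ w c h1
  have hd := blk_of_rel R top htop ι κ ⟨c, hc⟩ d h2
  exact ⟨⟨c, hc⟩, ⟨d, hd⟩, h1, h2, h3⟩

/-- The product representation. -/
def prodHom : LatticeHom L (Setoid (Blk R top ι κ)) where
  toFun := prel R top ι κ
  map_sup' x y := by
    have mono : ∀ {x y : L}, x ≤ y → prel R top ι κ x ≤ prel R top ι κ y := by
      intro x y hxy w w' h i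
      have : R x ≤ R y := OrderHomClass.mono R hxy
      exact this (h i)
    apply le_antisymm
    · intro w w' hww
      obtain ⟨c, d, h1, h2, h3⟩ := prel_type2_aux R top htop hR ι κ x y w w' hww
      have l1 : prel R top ι κ x ≤ prel R top ι κ x ⊔ prel R top ι κ y := le_sup_left
      have l2 : prel R top ι κ y ≤ prel R top ι κ x ⊔ prel R top ι κ y := le_sup_right
      exact Setoid.trans' _ (l1 h1) (Setoid.trans' _ (l2 h2) (l1 h3))
    · exact sup_le (mono le_sup_left) (mono le_sup_right)
  map_inf' x y := by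
    ext w w'
    constructor
    · intro h
      have h' : ∀ i, R x (w.1 i) (w'.1 i) ∧ R y (w.1 i) (w'.1 i) := by
        intro i
        have h1 : R (x ⊓ y) (w.1 i) (w'.1 i) := h i
        rw [map_inf] at h1
        exact h1
      exact ⟨fun i => (h' i).1, fun i => (h' i).2⟩
    · rintro ⟨h1, h2⟩ i
      show R (x ⊓ y) (w.1 i) (w'.1 i)
      rw [map_inf]
      exact ⟨h1 i, h2 i⟩

theorem prodHom_apply (x : L) (w w' : Blk R top ι κ) :
    prodHom R top htop hR ι κ x w w' ↔ ∀ i, R x (w.1 i) (w'.1 i) := Iff.rfl

theorem prodHom_type2 : IsType2 (prodHom R top htop hR ι κ) := fun x y s t h =>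
  prel_type2_aux R top htop hR ι κ x y s t h

theorem prodHom_top (w w' : Blk R top ι κ) : prodHom R top htop hR ι κ top w w' := by
  intro i
  exact Quotient.exact ((w.2 i).trans (w'.2 i).symm)

theorem prodHom_injective (hRi : Function.Injective R) (hκ : Function.Surjective κ) :
    Function.Injective (prodHom R top htop hR ι κ) := by
  have key : ∀ x y : L, prel R top ι κ x ≤ prel R top ι κ y → R x ≤ R y := by
    intro x y h s t hst
    classical
    have htp : R x ≤ R top := OrderHomClass.mono R (htop x)
    obtain ⟨i0, hi0⟩ := hκ (Quotient.mk _ s)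
    let w : Blk R top ι κ := ⟨fun i => if i = i0 then s else (κ i).out, by
      intro i
      by_cases hi : i = i0
      · subst hi; simp [hi0]
      · simp [hi]⟩
    let w' : Blk R top ι κ := ⟨fun i => if i = i0 then t else (κ i).out, by
      intro i
      by_cases hi : i = i0
      · subst hi
        simp only [if_true, hi0]
        exact Quotient.sound (Setoid.symm' _ (htp hst))
      · simp [hi]⟩
    have hw : prel R top ι κ x w w' := by
      intro i
      by_cases hi : i = i0
      · subst hi
        have e1 : w.1 i = s := if_pos rfl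
        have e2 : w'.1 i = t := if_pos rfl
        rw [e1, e2]; exact hst
      · have e1 : w.1 i = (κ i).out := if_neg hi
        have e2 : w'.1 i = (κ i).out := if_neg hi
        show R x (w.1 i) (w'.1 i)
        simp only [e1, e2]
        exact Setoid.refl' _ _
    have := h hw i0
    have e1 : w.1 i0 = s := if_pos rfl
    have e2 : w'.1 i0 = t := if_pos rfl
    rwa [e1, e2] at this
  intro x y hxy
  have hxy' : prel R top ι κ x = prel R top ι κ y := hxy
  exact hRi (le_antisymm (key x y hxy'.le) (key y x hxy'.ge))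

/-- Two relations permute. -/
def Permute {A : Type} (r s : Setoid A) : Prop :=
  ∀ p q t : A, r p q → s q t → ∃ u, s p u ∧ r u t

theorem prodHom_comm (a : L) (ha : ∀ y, ¬ y ≤ a → y ⊔ a = top)
    (hcomm : ∀ y, Permute (R a) (R y))
    (y : L) (hy : ¬ y ≤ a) (w w' : Blk R top ι κ) :
    ∃ w'', prodHom R top htop hR ι κ y w w'' ∧ prodHom R top htop hR ι κ a w'' w' := by
  have h1 : ∀ i, ∃ u, R y (w.1 i) u ∧ R a u (w'.1 i) := by
    intro i
    have h2 : R (y ⊔ a) (w.1 i) (w'.1 i) := by
      rw [ha y hy]
      exact Quotient.exact ((w.2 i).trans (w'.2 i).symm)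
    obtain ⟨c, d, h3, h4, h5⟩ := hR _ _ _ _ h2
    obtain ⟨u, h6, h7⟩ := hcomm y _ _ _ h4 h5
    exact ⟨u, Setoid.trans' _ h3 h6, h7⟩
  choose u hu1 hu2 using h1
  exact ⟨⟨u, blk_of_rel R top htop ι κ w u hu1⟩, hu1, hu2⟩

/-- The classes of the coatom inside a block. -/
def Fib (a : L) (ha : a ≤ top) (q : Quotient (R top)) : Type :=
  {p : Quotient (R a) // Quotient.map' (s₁ := R a) (s₂ := R top) id
    (fun _ _ h => (OrderHomClass.mono R ha : R a ≤ R top) h) p = q}

theorem card_classes (a : L) (ha : a ≤ top) [Finite U] [Finite ι] :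
    Nat.card (Quotient (prodHom R top htop hR ι κ a)) = Nat.card (∀ i, Fib R top a ha (κ i)) := by
  let f : Quotient (prodHom R top htop hR ι κ a) → ∀ i, Fib R top a ha (κ i) :=
    Quotient.lift (fun w i => ⟨Quotient.mk (R a) (w.1 i), w.2 i⟩) (by
      intro w w' hww
      funext i
      exact Subtype.ext (Quotient.sound (hww i)))
  apply Nat.card_congr (Equiv.ofBijective f ⟨?_, ?_⟩)
  · intro p q hpq
    obtain ⟨w, rfl⟩ := Quotient.exists_rep p
    obtain ⟨w', rfl⟩ := Quotient.exists_rep q
    apply Quotient.sound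
    intro i
    have := congrArg Subtype.val (congrFun hpq i)
    exact Quotient.exact this
  · intro g
    have h1 : ∀ i, ∃ u : U, Quotient.mk (R a) u = (g i).1 := fun i => Quotient.exists_rep _
    choose u hu using h1
    have hu' : ∀ i, Quotient.mk (R top) (u i) = κ i := by
      intro i
      have := (g i).2
      rw [← hu i] at this
      exact this
    refine ⟨Quotient.mk _ ⟨u, hu'⟩, ?_⟩
    funext i
    exact Subtype.ext (hu i)

instance [Finite U] [Finite ι] : Finite (Blk R top ι κ) := Subtype.finite

end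

end Pool.Agent.H77.Glue
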