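import Mathlib

set_option autoImplicit false

namespace Pool.Agent.H77.Glue

/-- One-sided Dirichlet approximation. -/
theorem exists_onesided (θ : ℝ) (hθ : 0 < θ) (δ : ℝ) (hδ : 0 < δ) :
    ∃ j l : ℕ, 1 ≤ j ∧ (j : ℝ) * θ ≤ l ∧ (l : ℝ) - j * θ < δ := by
  obtain ⟨n, hn⟩ := exists_nat_gt (1 / δ)
  obtain ⟨j0, k, hk0, -, hjk⟩ := Real.exists_int_int_abs_mul_sub_le θ (n := n + 1) (Nat.succ_pos n)
  have hn1 : (1 : ℝ) / (((n + 1 : ℕ) : ℝ) + 1) < δ := by
    rw [div_lt_iff₀ (by positivity)]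
    rw [div_lt_iff₀ hδ] at hn
    push_cast
    nlinarith
  have hn2 : (1 : ℝ) / (((n + 1 : ℕ) : ℝ) + 1) ≤ 1 / 2 := by
    apply one_div_le_one_div_of_le (by norm_num)
    push_cast
    have : (0 : ℝ) ≤ n := Nat.cast_nonneg n
    linarith
  have hk : (0 : ℝ) < k := by exact_mod_cast hk0
  set η : ℝ := (k : ℝ) * θ - j0 with hη
  have hkθ : 0 < (k : ℝ) * θ := mul_pos hk hθ
  have habs := abs_le.1 hjk
  have hj0 : (0 : ℤ) ≤ j0 := by
    by_contra hneg
    push Not at hneg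
    have : (j0 : ℝ) ≤ -1 := by exact_mod_cast (by omega : j0 ≤ -1)
    linarith [habs.2]
  obtain ⟨K, rfl⟩ := Int.eq_ofNat_of_zero_le hk0.le
  obtain ⟨J, rfl⟩ := Int.eq_ofNat_of_zero_le hj0
  have hK1 : 1 ≤ K := by exact_mod_cast hk0
  simp only [Int.cast_natCast] at *
  rcases le_or_gt η 0 with h | h
  · refine ⟨K, J, hK1, by linarith, ?_⟩
    linarith [habs.1]
  · set s : ℕ := ⌊1 / η⌋₊ with hs
    have hs1 : (s : ℝ) ≤ 1 / η := Nat.floor_le (by positivity)
    have hs2 : 1 / η < s + 1 := Nat.lt_floor_add_one _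
    have hs1' : (s : ℝ) * η ≤ 1 := by rwa [le_div_iff₀ h] at hs1
    have hs2' : 1 < ((s : ℝ) + 1) * η := by rwa [div_lt_iff₀ h] at hs2
    have hs3 : 1 ≤ s := by
      rw [hs, Nat.one_le_floor_iff, le_div_iff₀ h]
      linarith [habs.2]
    refine ⟨s * K, s * J + 1, ?_, ?_, ?_⟩
    · exact Nat.one_le_iff_ne_zero.2 (by positivity)
    · push_cast
      have : (s : ℝ) * K * θ = s * η + s * J := by rw [hη]; ring
      rw [this]; linarith
    · push_cast
      have : (s : ℝ) * K * θ = s * η + s * J := by rw [hη]; ring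
      rw [this]
      have : (s : ℝ) * η + η > 1 := by linarith
      linarith [habs.2]

theorem exists_pow_close (k q D : ℕ) (hk : 2 ≤ k) (hq : 2 ≤ q) :
    ∃ j l : ℕ, 1 ≤ j ∧ 1 ≤ l ∧ k ^ j ≤ q ^ l ∧ D * (q ^ l - k ^ j) < q ^ l := by
  have hkr : (2 : ℝ) ≤ k := by exact_mod_cast hk
  have hqr : (2 : ℝ) ≤ q := by exact_mod_cast hq
  have hlk : 0 < Real.log k := Real.log_pos (by linarith)
  have hlq : 0 < Real.log q := Real.log_pos (by linarith)
  set θ : ℝ := Real.log k / Real.log q with hθ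
  have hθ0 : 0 < θ := div_pos hlk hlq
  set δ : ℝ := Real.log (1 + 1 / (D + 1)) / Real.log q with hδ
  have hD : (0 : ℝ) < D + 1 := by positivity
  have hδ0 : 0 < δ := by
    apply div_pos _ hlq
    apply Real.log_pos
    have : (0 : ℝ) < 1 / (D + 1) := by positivity
    linarith
  obtain ⟨j, l, hj, h1, h2⟩ := exists_onesided θ hθ0 δ hδ0
  have e1 : (j : ℝ) * θ * Real.log q = Real.log ((k : ℝ) ^ j) := by
    rw [Real.log_pow, hθ]; field_simp
  have e2 : (l : ℝ) * Real.log q = Real.log ((q : ℝ) ^ l) := by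
    rw [Real.log_pow]
  have hkp : (0 : ℝ) < (k : ℝ) ^ j := by positivity
  have hqp : (0 : ℝ) < (q : ℝ) ^ l := by positivity
  have h3 : (k : ℝ) ^ j ≤ (q : ℝ) ^ l := by
    rw [← Real.log_le_log_iff hkp hqp, ← e1, ← e2]
    exact mul_le_mul_of_nonneg_right h1 hlq.le
  have h4 : (q : ℝ) ^ l < (1 + 1 / (D + 1)) * (k : ℝ) ^ j := by
    rw [← Real.log_lt_log_iff hqp (by positivity), Real.log_mul (by positivity) (by positivity),
      ← e1, ← e2]
    have : ((l : ℝ) - j * θ) * Real.log q < δ * Real.log q :=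
      mul_lt_mul_of_pos_right h2 hlq
    have e3 : δ * Real.log q = Real.log (1 + 1 / (D + 1)) := by
      rw [hδ]; field_simp
    linarith
  have hle : k ^ j ≤ q ^ l := by exact_mod_cast h3
  refine ⟨j, l, hj, ?_, hle, ?_⟩
  · by_contra hl
    have : l = 0 := by omega
    subst this
    have h6 : k ^ j ≤ 1 := by simpa using hle
    have h5 : k ^ 1 ≤ k ^ j := Nat.pow_le_pow_right (by omega) hj
    rw [pow_one] at h5
    omega
  · have : ((D * (q ^ l - k ^ j) : ℕ) : ℝ) < ((q ^ l : ℕ) : ℝ) := by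
      push_cast [Nat.cast_sub hle]
      have h5 : (1 + 1 / ((D : ℝ) + 1)) * (k : ℝ) ^ j = (k : ℝ) ^ j + (k : ℝ) ^ j / (D + 1) := by
        field_simp
      rw [h5] at h4
      have h6 : (q : ℝ) ^ l - (k : ℝ) ^ j < (k : ℝ) ^ j / (D + 1) := by linarith
      have h7 : ((q : ℝ) ^ l - (k : ℝ) ^ j) * (D + 1) < (k : ℝ) ^ j := by
        rwa [lt_div_iff₀ hD] at h6
      nlinarith
    exact_mod_cast this

end Pool.Agent.H77.Glue
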