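import Mathlib

set_option autoImplicit false

namespace Pool.Agent.H77.Glue

section

variable {F E : Type} [Field F] [AddCommGroup E] [Module F E]

/-- Powers of subspaces as additive subgroups. -/
def powSub (l : ℕ) : LatticeHom (Submodule F E) (AddSubgroup (Fin l → E)) where
  toFun X :=
    { carrier := {v | ∀ t, v t ∈ X}
      zero_mem' := fun t => X.zero_mem
      add_mem' := fun hv hw t => X.add_mem (hv t) (hw t)
      neg_mem' := fun hv t => X.neg_mem (hv t) }
  map_sup' X Y := by
    ext v
    rw [AddSubgroup.mem_sup]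
    constructor
    · intro h
      have h' : ∀ t, v t ∈ X ⊔ Y := h
      simp only [Submodule.mem_sup] at h'
      choose y hy z hz hyz using h'
      exact ⟨y, hy, z, hz, funext hyz⟩
    · rintro ⟨y, hy, z, hz, rfl⟩ t
      exact Submodule.mem_sup.2 ⟨y t, hy t, z t, hz t, rfl⟩
  map_inf' X Y := by
    ext v
    exact ⟨fun h => ⟨fun t => (h t).1, fun t => (h t).2⟩, fun h t => ⟨h.1 t, h.2 t⟩⟩

theorem mem_powSub (l : ℕ) (X : Submodule F E) (v : Fin l → E) :
    v ∈ powSub l X ↔ ∀ t, v t ∈ X := Iff.rfl

theorem powSub_injective (l : ℕ) (hl : 1 ≤ l) :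
    Function.Injective (powSub (F := F) (E := E) l) := by
  intro X Y h
  ext x
  have := SetLike.ext_iff.1 h (fun _ => x)
  rw [mem_powSub, mem_powSub] at this
  constructor
  · intro hx
    exact this.1 (fun _ => hx) ⟨0, hl⟩
  · intro hx
    exact this.2 (fun _ => hx) ⟨0, hl⟩

theorem exists_functionals [FiniteDimensional F E] (A B : Submodule F E) :
    ∃ (d : ℕ) (h : E →ₗ[F] (Fin d → F)), (∀ v ∈ B, h v = 0 ↔ v ∈ A) ∧ (∀ c, ∃ v ∈ B, h v = c) := by
  let A' : Submodule F B := A.comap B.subtype
  let e := (Module.finBasis F (B ⧸ A')).equivFun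
  let g : B →ₗ[F] (Fin (Module.finrank F (B ⧸ A')) → F) := e.toLinearMap ∘ₗ A'.mkQ
  obtain ⟨h, hh⟩ := LinearMap.exists_extend g
  have key : ∀ v : B, h (v : E) = g v := fun v => LinearMap.congr_fun hh v
  refine ⟨_, h, ?_, ?_⟩
  · intro v hv
    rw [key ⟨v, hv⟩]
    show e (A'.mkQ ⟨v, hv⟩) = 0 ↔ _
    rw [LinearEquiv.map_eq_zero_iff, Submodule.mkQ_apply, Submodule.Quotient.mk_eq_zero]
    exact Iff.rfl
  · intro c
    obtain ⟨v, hv⟩ := A'.mkQ_surjective (e.symm c)
    refine ⟨v, v.2, ?_⟩
    rw [key v]
    show e (A'.mkQ v) = c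
    rw [hv, LinearEquiv.apply_symm_apply]

/-- The power of a tuple of functionals. -/
def powFun {d : ℕ} (l : ℕ) (h : E →ₗ[F] (Fin d → F)) : (Fin l → E) →+ (Fin d → Fin l → F) where
  toFun v i t := h (v t) i
  map_zero' := by ext i t; simp
  map_add' v w := by ext i t; simp

theorem powFun_apply {d : ℕ} (l : ℕ) (h : E →ₗ[F] (Fin d → F)) (v : Fin l → E) (i : Fin d)
    (t : Fin l) : powFun l h v i t = h (v t) i := rfl

open Classical in
/-- Fibre counting for a surjective homomorphism of finite groups. -/
theorem card_preimage {G K : Type} [AddCommGroup G] [AddCommGroup K] [Fintype G] [Fintype K]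
    (f : G →+ K) (hf : Function.Surjective f) (T : Finset K) :
    (Finset.univ.filter (fun g => f g ∈ T)).card * Fintype.card K = T.card * Fintype.card G := by
  have hfib : ∀ k : K, (Finset.univ.filter (fun g => f g = k)).card =
      (Finset.univ.filter (fun g => f g = 0)).card := by
    intro k
    apply AddMonoidHom.card_fiber_eq_of_mem_range f (hf k) (hf 0)
  set N := (Finset.univ.filter (fun g => f g = 0)).card with hN
  have h1 : (Finset.univ.filter (fun g => f g ∈ T)).card = T.card * N := by
    rw [Finset.card_eq_sum_card_fiberwise (f := f) (t := T)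
      (s := Finset.univ.filter (fun g => f g ∈ T))]
    · rw [← smul_eq_mul, ← Finset.sum_const]
      apply Finset.sum_congr rfl
      intro k hk
      rw [← hfib k]
      congr 1
      ext g
      simp only [Finset.mem_filter, Finset.mem_univ, true_and]
      constructor
      · exact fun h => h.2
      · rintro rfl; exact ⟨hk, rfl⟩
    · intro g hg
      simpa using hg
  have h2 : Fintype.card G = Fintype.card K * N := by
    have h3 := Finset.card_eq_sum_card_fiberwise (f := f) (t := (Finset.univ : Finset K))
      (s := (Finset.univ : Finset G)) (fun g _ => Finset.mem_coe.2 (Finset.mem_univ _))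
    rw [Finset.card_univ] at h3
    rw [h3, ← Finset.card_univ (α := K), ← smul_eq_mul, ← Finset.sum_const]
    exact Finset.sum_congr rfl (fun k _ => hfib k)
  rw [h1, h2]; ring

variable [Fintype F]

open Classical in
/-- The bad set is less than half. -/
theorem bad_lt [Fintype E] {d l : ℕ} (h : E →ₗ[F] (Fin d → F)) (X : Submodule F E)
    (A : Finset (Fin l → F))
    (hA : 2 * d * (Fintype.card (Fin l → F) - A.card) < Fintype.card (Fin l → F))
    (c : Fin l → E) (hc : ∀ i, powFun l h c i ∈ A) :
    2 * (Finset.univ.filter (fun ξ : powSub l X =>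
      ¬ ∀ i, powFun l h (c + (ξ : Fin l → E)) i ∈ A)).card < Fintype.card (powSub l X) := by
  set Q := Fintype.card (Fin l → F) with hQ
  set G := Fintype.card (powSub l X) with hG
  have hG0 : 0 < G := Fintype.card_pos
  have hQ0 : 0 < Q := Fintype.card_pos
  have hi : ∀ i : Fin d, (Finset.univ.filter (fun ξ : powSub l X =>
      powFun l h (c + (ξ : Fin l → E)) i ∉ A)).card * Q ≤ (Q - A.card) * G := by
    intro i
    by_cases hz : ∀ x ∈ X, h x i = 0
    · have : (Finset.univ.filter (fun ξ : powSub l X =>
          powFun l h (c + (ξ : Fin l → E)) i ∉ A)) = ∅ := by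
        apply Finset.filter_eq_empty_iff.2
        intro ξ _ hn
        apply hn
        have : powFun l h (c + (ξ : Fin l → E)) i = powFun l h c i := by
          rw [map_add]
          ext t
          show powFun l h c i t + powFun l h ξ i t = _
          rw [powFun_apply l h ξ, hz _ (ξ.2 t), add_zero]
        rw [this]; exact hc i
      rw [this]; simp
    · push Not at hz
      obtain ⟨x, hx, hxi⟩ := hz
      let f : powSub l X →+ (Fin l → F) :=
        { toFun := fun ξ t => h ((ξ : Fin l → E) t) i
          map_zero' := by ext t; simp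
          map_add' := fun ξ η => by ext t; simp }
      have hf : Function.Surjective f := by
        intro k
        refine ⟨⟨fun t => (k t / h x i) • x, fun t => X.smul_mem _ hx⟩, ?_⟩
        ext t
        show h ((k t / h x i) • x) i = k t
        rw [map_smul, Pi.smul_apply, smul_eq_mul, div_mul_cancel₀ _ hxi]
      have h1 := card_preimage f hf (Finset.univ.filter (fun k => powFun l h c i + k ∉ A))
      have h2 : (Finset.univ.filter (fun k : Fin l → F => powFun l h c i + k ∉ A)).card =
          Q - A.card := by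
        have h3 : (Finset.univ.filter (fun k : Fin l → F => powFun l h c i + k ∉ A)) =
            Aᶜ.map (Equiv.addLeft (-(powFun l h c i))).toEmbedding := by
          ext k
          simp only [Finset.mem_filter, Finset.mem_univ, true_and, Finset.mem_map,
            Finset.mem_compl, Equiv.coe_toEmbedding, Equiv.coe_addLeft]
          constructor
          · intro hk
            exact ⟨_, hk, by abel⟩
          · rintro ⟨m, hm, rfl⟩
            rw [add_neg_cancel_left]; exact hm
        rw [h3, Finset.card_map, Finset.card_compl]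
      rw [h2] at h1
      refine le_of_eq (Eq.trans (congrArg (fun n : ℕ => n * Q) (congrArg Finset.card ?_)) h1)
      ext ξ
      simp only [Finset.mem_filter, Finset.mem_univ, true_and]
      have : powFun l h (c + (ξ : Fin l → E)) i = powFun l h c i + f ξ := by
        rw [map_add]; rfl
      rw [this]
  have hsub : (Finset.univ.filter (fun ξ : powSub l X =>
      ¬ ∀ i, powFun l h (c + (ξ : Fin l → E)) i ∈ A)) ⊆ Finset.univ.biUnion (fun i : Fin d =>
      Finset.univ.filter (fun ξ : powSub l X => powFun l h (c + (ξ : Fin l → E)) i ∉ A)) := by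
    intro ξ hξ
    simp only [Finset.mem_filter, Finset.mem_univ, true_and, not_forall] at hξ
    obtain ⟨i, hi⟩ := hξ
    simp only [Finset.mem_biUnion, Finset.mem_filter, Finset.mem_univ, true_and]
    exact ⟨i, hi⟩
  have hcard := (Finset.card_le_card hsub).trans Finset.card_biUnion_le
  set N := (Finset.univ.filter (fun ξ : powSub l X =>
      ¬ ∀ i, powFun l h (c + (ξ : Fin l → E)) i ∈ A)).card with hN
  have h5 : N * Q ≤ d * ((Q - A.card) * G) := by
    calc N * Q ≤ (∑ i : Fin d, (Finset.univ.filter (fun ξ : powSub l X =>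
          powFun l h (c + (ξ : Fin l → E)) i ∉ A)).card) * Q := Nat.mul_le_mul_right _ hcard
      _ = ∑ i : Fin d, (Finset.univ.filter (fun ξ : powSub l X =>
          powFun l h (c + (ξ : Fin l → E)) i ∉ A)).card * Q := Finset.sum_mul _ _ _
      _ ≤ ∑ _i : Fin d, (Q - A.card) * G := Finset.sum_le_sum (fun i _ => hi i)
      _ = d * ((Q - A.card) * G) := by simp
  have h6 : (2 * N) * Q < G * Q := by
    calc (2 * N) * Q = 2 * (N * Q) := by ring
      _ ≤ 2 * (d * ((Q - A.card) * G)) := Nat.mul_le_mul_left _ h5
      _ = (2 * d * (Q - A.card)) * G := by ring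
      _ < Q * G := Nat.mul_lt_mul_of_pos_right hA hG0
      _ = G * Q := Nat.mul_comm _ _
  exact Nat.lt_of_mul_lt_mul_right h6

/-- The robustness property. -/
theorem robust_pow [Fintype E] {d l : ℕ} (h : E →ₗ[F] (Fin d → F)) (X : Submodule F E)
    (A : Finset (Fin l → F))
    (hA : 2 * d * (Fintype.card (Fin l → F) - A.card) < Fintype.card (Fin l → F))
    (v v' : Fin l → E) (hv : ∀ i, powFun l h v i ∈ A) (hv' : ∀ i, powFun l h v' i ∈ A)
    (ξ0 : Fin l → E) (hξ0 : ξ0 ∈ powSub l X) :
    ∃ ξ1 ∈ powSub l X, (∀ i, powFun l h (v + ξ1) i ∈ A) ∧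
      ∀ i, powFun l h (v' - ξ0 + ξ1) i ∈ A := by
  classical
  by_contra hcon
  push Not at hcon
  have b1 := bad_lt h X A hA v hv
  have b2 := bad_lt h X A hA v' hv'
  set B1 := (Finset.univ.filter (fun ξ : powSub l X =>
      ¬ ∀ i, powFun l h (v + (ξ : Fin l → E)) i ∈ A)) with hB1
  set B2 := (Finset.univ.filter (fun ξ : powSub l X =>
      ¬ ∀ i, powFun l h (v' + (ξ : Fin l → E)) i ∈ A)) with hB2
  let e : powSub l X ≃ powSub l X := Equiv.addLeft ⟨ξ0, hξ0⟩
  have hunion : (Finset.univ : Finset (powSub l X)) ⊆ B1 ∪ B2.map e.toEmbedding := by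
    intro ξ _
    rw [Finset.mem_union]
    by_cases hg : ∀ i, powFun l h (v + (ξ : Fin l → E)) i ∈ A
    · right
      obtain ⟨i, hi⟩ := hcon ξ ξ.2 hg
      rw [Finset.mem_map]
      refine ⟨e.symm ξ, ?_, by simp⟩
      rw [hB2, Finset.mem_filter]
      refine ⟨Finset.mem_univ _, ?_⟩
      intro hall
      apply hi
      have := hall i
      have e1 : v' + ((e.symm ξ : powSub l X) : Fin l → E) = v' - ξ0 + ξ := by
        have : ((e.symm ξ : powSub l X) : Fin l → E) = -ξ0 + ξ := rfl
        rw [this]; abel
      rwa [e1] at this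
    · left
      rw [hB1, Finset.mem_filter]
      exact ⟨Finset.mem_univ _, hg⟩
  have := (Finset.card_le_card hunion).trans (Finset.card_union_le _ _)
  rw [Finset.card_map, Finset.card_univ] at this
  omega

end

end Pool.Agent.H77.Glue
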